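import Pool.Agent.X197.SepCont

/-!
# Compact subspaces of `S_cro(X × Y)` are metrizable (MP_63c1c3_gt, Q1)
-/

open Set Topology TopologicalSpace Filter Pool.Agent.X197.SepCont

namespace Pool.Agent.Results.MP_63c1c3_gt.CrossOpen

/-- **Answer to Q1 of MP_63c1c3_gt** (negative, for all separable spaces). Let `X` and `Y` be
separable topological spaces (for instance Polish spaces). Then every compact subspace of
`S_cro(X × Y)` is metrizable. -/
theorem result (X : Type*) (Y : Type*) [TopologicalSpace X] [TopologicalSpace Y]
    [SeparableSpace X] [SeparableSpace Y] (K : Set (SepCont X Y))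
    (hK : @IsCompact _ (croTopology X Y) K) :
    @MetrizableSpace K (@instTopologicalSpaceSubtype _ _ (croTopology X Y)) :=
  metrizable_of_eval (croTopology X Y) continuous_eval_cro K hK

end Pool.Agent.Results.MP_63c1c3_gt.CrossOpen
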